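import Mathlib
import Pool.Agent.V116.IZBasic

/-!
If two varieties of implication zroupoids do not contain `ZM` then neither does their join.
-/

namespace Pool.Agent.Results.MP_5bed1d_al.ZMJoin

open Pool.Agent.V116.IZBasic

universe u

/-- Q1 of MP_5bed1d_al. -/
theorem result (X Y : SubVar.{u}) (hX : ¬ ZM ≤ X) (hY : ¬ ZM ≤ Y) : ¬ ZM ≤ X ⊔ Y := by
  apply not_zm_of_inv2
  rw [th_sup]
  exact ⟨inv2_of_not_zm hX, inv2_of_not_zm hY⟩

end Pool.Agent.Results.MP_5bed1d_al.ZMJoin
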